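import Pool.Agent.Lib.MP_f5651a_an.FiniteDim
import Pool.Agent.Lib.MP_f5651a_an.InfiniteDim

set_option autoImplicit false

namespace Pool.Agent.Results.MP_f5651a_an.Q1Dichotomy

open Filter Topology

/-- **Complete answer to Q1.** For a real Banach space `E` and `m ≥ 2`, every discontinuous
functional `F` of degree `m` on `E` admits one sequence `x n → 0` with `|F (x n + y)| → ∞` for all
`y`, if and only if `E` is finite-dimensional. -/
theorem result (E : Type*) [NormedAddCommGroup E] [NormedSpace ℝ E] [CompleteSpace E]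
    (m : ℕ) (hm : 2 ≤ m) :
    (∀ F : E → ℝ,
      (∀ x₀ h₀ : E, ∃ a : ℕ → ℝ, ∀ t : ℚ,
        F (x₀ + (t : ℝ) • h₀) = ∑ i ∈ Finset.range (m + 1), a i * (t : ℝ) ^ i) →
      ¬ Continuous F →
      ∃ x : ℕ → E, Tendsto x atTop (𝓝 0) ∧
        ∀ y : E, Tendsto (fun n => |F (x n + y)|) atTop atTop) ↔
    FiniteDimensional ℝ E := by
  constructor
  · intro h
    by_contra hE
    obtain ⟨F, hF, hd, hx⟩ :=
      Pool.Agent.Lib.MP_f5651a_an.InfiniteDim.infinite_dim E hE m hm
    obtain ⟨x, hx0, hy⟩ := h F hF hd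
    obtain ⟨y, hy'⟩ := hx x hx0
    exact hy' (hy y)
  · intro hE F hF hd
    exact Pool.Agent.Lib.MP_f5651a_an.FiniteDim.finite_dim m F hF hd

end Pool.Agent.Results.MP_f5651a_an.Q1Dichotomy
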