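import Pool.Agent.Lib.MP_f5651a_an.Poly

set_option autoImplicit false

namespace Pool.Agent.Results.MP_f5651a_an.Q2Holds

open Filter Topology Polynomial Pool.Agent.Lib.MP_f5651a_an

variable {E : Type*} [NormedAddCommGroup E] [NormedSpace ℝ E]

/-- a functional of degree `m` which is bounded on bounded sets is continuous -/
theorem continuous_of_bounded {m : ℕ} {F : E → ℝ} (hF : IsFunctionalOfDegree m F)
    (hb : ∀ R : ℝ, ∃ M : ℝ, ∀ x : E, ‖x‖ ≤ R → |F x| ≤ M) : Continuous F := by
  rw [isFunctional_iff] at hF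
  obtain ⟨K, hK, hKp⟩ := coeff_bound m
  rw [Metric.continuous_iff]
  intro x ε hε
  obtain ⟨M, hM⟩ := hb (‖x‖ + m)
  have hM0 : 0 ≤ M := (abs_nonneg _).trans (hM x (by simp))
  -- the Lipschitz type constant
  set A : ℝ := (m + 1) * (K * M) + 1 with hA
  have hA0 : 0 < A := by positivity
  have hline : ∀ (h : E) (t : ℚ), ‖h‖ ≤ 1 → 0 ≤ t → t ≤ 1 →
      |F (x + (t : ℝ) • h) - F x| ≤ A * t := by
    intro h t hh ht0 ht1
    obtain ⟨p, hp, hpt⟩ := hF x h
    have hpj : ∀ j ≤ m, |p.eval (j : ℝ)| ≤ M := by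
      intro j hj
      have h1 := hpt (j : ℚ)
      rw [Rat.cast_natCast] at h1
      rw [← h1]
      apply hM
      refine (norm_add_le _ _).trans ?_
      rw [norm_smul, Real.norm_natCast]
      have : (j : ℝ) * ‖h‖ ≤ m * 1 := by
        apply mul_le_mul _ hh (norm_nonneg _) (Nat.cast_nonneg _)
        exact_mod_cast hj
      linarith
    have hc := hKp p M hp hpj
    have h0 := hpt 0
    rw [Rat.cast_zero, zero_smul, add_zero] at h0
    rw [hpt t, h0]
    have ht0' : (0 : ℝ) ≤ t := by exact_mod_cast ht0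
    have ht1' : (t : ℝ) ≤ 1 := by exact_mod_cast ht1
    have h2 : p.eval (t : ℝ) - p.eval 0 =
        ∑ k ∈ Finset.range (m + 1), p.coeff k * ((t : ℝ) ^ k - 0 ^ k) := by
      rw [Polynomial.eval_eq_sum_range' (Nat.lt_succ_of_le hp),
        Polynomial.eval_eq_sum_range' (Nat.lt_succ_of_le hp), ← Finset.sum_sub_distrib]
      refine Finset.sum_congr rfl fun k _ => ?_
      ring
    rw [h2]
    calc |∑ k ∈ Finset.range (m + 1), p.coeff k * ((t : ℝ) ^ k - 0 ^ k)|
        ≤ ∑ k ∈ Finset.range (m + 1), |p.coeff k * ((t : ℝ) ^ k - 0 ^ k)| :=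
          Finset.abs_sum_le_sum_abs _ _
      _ ≤ ∑ k ∈ Finset.range (m + 1), (K * M) * t := by
          refine Finset.sum_le_sum fun k _ => ?_
          rw [abs_mul]
          refine mul_le_mul (hc k) ?_ (abs_nonneg _) (by positivity)
          rcases Nat.eq_zero_or_pos k with rfl | hk
          · simpa using ht0'
          · rw [zero_pow (by omega), sub_zero, abs_of_nonneg (by positivity)]
            exact pow_le_of_le_one ht0' ht1' (by omega)
      _ = (m + 1) * (K * M) * t := by
          rw [Finset.sum_const, Finset.card_range, nsmul_eq_mul]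
          push_cast
          ring
      _ ≤ A * t := by
          apply mul_le_mul_of_nonneg_right _ ht0'
          rw [hA]; linarith
  refine ⟨min (1 / 2) (ε / (2 * A + 1)), by positivity, ?_⟩
  intro y hy
  by_cases hyx : y = x
  · subst hyx; rw [dist_self]; exact hε
  have hd : 0 < ‖y - x‖ := norm_pos_iff.mpr (sub_ne_zero.mpr hyx)
  rw [dist_eq_norm] at hy
  have hy1 : ‖y - x‖ < 1 / 2 := lt_of_lt_of_le hy (min_le_left _ _)
  have hy2 : ‖y - x‖ < ε / (2 * A + 1) := lt_of_lt_of_le hy (min_le_right _ _)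
  obtain ⟨t, ht1, ht2⟩ := exists_rat_btwn (show ‖y - x‖ < 2 * ‖y - x‖ by linarith)
  have ht0 : (0 : ℝ) < t := lt_trans hd ht1
  have h3 := hline ((t : ℝ)⁻¹ • (y - x)) t ?_ ?_ ?_
  · rw [smul_smul, mul_inv_cancel₀ ht0.ne', one_smul, add_sub_cancel] at h3
    rw [Real.dist_eq]
    calc |F y - F x| ≤ A * t := h3
      _ ≤ A * (2 * ‖y - x‖) := by
          exact mul_le_mul_of_nonneg_left ht2.le hA0.le
      _ ≤ (2 * A + 1) * ‖y - x‖ := by nlinarith
      _ < ε := by
          rw [lt_div_iff₀ (by positivity)] at hy2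
          linarith
  · rw [norm_smul, norm_inv, Real.norm_of_nonneg ht0.le, inv_mul_le_iff₀ ht0, mul_one]
    exact ht1.le
  · exact_mod_cast ht0.le
  · have : (t : ℝ) ≤ 1 := by linarith
    exact_mod_cast this

/-- a discontinuous homogeneous functional is unbounded near `0` -/
theorem exists_large {m : ℕ} {c : E → ℝ} (hc : IsFunctionalOfDegree m c)
    (hhom : ∀ (r : ℚ) (h : E), c ((r : ℝ) • h) = (r : ℝ) ^ m * c h) (hnc : ¬ Continuous c)
    (n : ℕ) : ∃ z : E, ‖z‖ < 1 / ((n : ℝ) + 1) ∧ (n : ℝ) < |c z| := by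
  by_contra hcon
  push Not at hcon
  apply hnc
  apply continuous_of_bounded hc
  intro R
  obtain ⟨N, hN⟩ := exists_nat_gt (|R| * ((n : ℝ) + 1))
  have hN0 : (0 : ℝ) < N := lt_of_le_of_lt (by positivity) hN
  refine ⟨(N : ℝ) ^ m * n, fun x hx => ?_⟩
  have h1 := hhom (N : ℚ) ((N : ℝ)⁻¹ • x)
  rw [Rat.cast_natCast, smul_smul, mul_inv_cancel₀ hN0.ne', one_smul] at h1
  rw [h1, abs_mul, abs_of_pos (by positivity : (0 : ℝ) < (N : ℝ) ^ m)]
  apply mul_le_mul_of_nonneg_left _ (by positivity)
  apply hcon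
  rw [norm_smul, norm_inv, Real.norm_natCast, inv_mul_lt_iff₀ hN0, mul_one_div,
    lt_div_iff₀ (by positivity)]
  calc ‖x‖ * ((n : ℝ) + 1) ≤ |R| * ((n : ℝ) + 1) := by
        apply mul_le_mul_of_nonneg_right _ (by positivity)
        exact hx.trans (le_abs_self R)
    _ < N := hN

theorem main (m : ℕ) : ∀ F : E → ℝ, IsFunctionalOfDegree m F → ¬ Continuous F →
    ∃ x : ℕ → E, Tendsto x atTop (𝓝 0) ∧ ∀ (y : E) (C : ℝ), ∃ᶠ n in atTop, C < |F (x n + y)| := by
  induction m with
  | zero =>
    intro F hF hnc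
    exfalso
    apply hnc
    have : F = fun _ => F 0 := by
      funext h
      obtain ⟨a, ha⟩ := hF 0 h
      have h0 := ha 0
      have h1 := ha 1
      simp at h0 h1
      rw [h0, h1]
    rw [this]
    exact continuous_const
  | succ m ih =>
    intro F hF hnc
    obtain ⟨c, hc1, hc2, hhom⟩ := exists_top hF
    by_cases hcont : Continuous c
    · have hG := degree_reduce hc1 hc2
      have hGnc : ¬ Continuous (fun x => F x - c x) := by
        intro h
        apply hnc
        have h2 := h.add hcont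
        have h3 : ((fun x => F x - c x) + c) = F := by
          funext x
          simp
        rwa [h3] at h2
      obtain ⟨x, hx, hxy⟩ := ih _ hG hGnc
      refine ⟨x, hx, fun y C => ?_⟩
      have h1 : Tendsto (fun n => c (x n + y)) atTop (𝓝 (c (0 + y))) :=
        (hcont.tendsto _).comp (hx.add_const y)
      rw [zero_add] at h1
      have h2 : ∀ᶠ n in atTop, |c (x n + y)| < |c y| + 1 :=
        h1.abs.eventually_lt_const (by linarith)
      refine ((hxy y (C + |c y| + 1)).and_eventually h2).mono ?_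
      rintro n ⟨h3, h4⟩
      have h5 : |F (x n + y) - c (x n + y)| ≤ |F (x n + y)| + |c (x n + y)| := abs_sub _ _
      linarith
    · -- the top coefficient is discontinuous
      have hcdeg : IsFunctionalOfDegree (m + 1) c := by
        rw [isFunctional_iff]
        intro x h
        obtain ⟨p, hp, _, hpt⟩ := hc2 x h
        exact ⟨p, hp, hpt⟩
      choose z hz1 hz2 using exists_large hcdeg hhom hcont
      obtain ⟨K, hK, hKp⟩ := coeff_bound (m + 1)
      refine ⟨fun N => ((N % (m + 2) : ℕ) : ℝ) • z (N / (m + 2)), ?_, ?_⟩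
      · rw [tendsto_zero_iff_norm_tendsto_zero]
        have hdiv : Tendsto (fun N : ℕ => N / (m + 2)) atTop atTop := by
          apply Nat.tendsto_div_const_atTop
          omega
        have h1 : Tendsto (fun N : ℕ => ((m : ℝ) + 2) * (1 / (((N / (m + 2) : ℕ) : ℝ) + 1)))
            atTop (𝓝 (((m : ℝ) + 2) * 0)) :=
          (tendsto_one_div_add_atTop_nhds_zero_nat.comp hdiv).const_mul _
        rw [mul_zero] at h1
        refine squeeze_zero (fun _ => norm_nonneg _) (fun N => ?_) h1
        rw [norm_smul, Real.norm_natCast]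
        apply mul_le_mul _ (hz1 _).le (norm_nonneg _) (by positivity)
        have := (Nat.mod_lt N (show 0 < m + 2 by omega)).le
        exact_mod_cast this
      · intro y C
        by_contra hcon
        rw [not_frequently, eventually_atTop] at hcon
        obtain ⟨N₀, hN₀⟩ := hcon
        have hbd : ∀ n ≥ N₀, |c (z n)| ≤ K * |C| := by
          intro n hn
          obtain ⟨p, hp, hpc, hpt⟩ := hc1 y (z n)
          rw [← hpc]
          apply hKp p |C| hp
          intro j hj
          have h1 := hpt (j : ℚ)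
          rw [Rat.cast_natCast] at h1
          rw [← h1, add_comm]
          have h2 := hN₀ ((m + 2) * n + j) (by nlinarith)
          have h3 : ((m + 2) * n + j) % (m + 2) = j := by
            rw [Nat.mul_add_mod]
            exact Nat.mod_eq_of_lt (by omega)
          have h4 : ((m + 2) * n + j) / (m + 2) = n := by
            rw [Nat.mul_add_div (by omega), Nat.div_eq_of_lt (by omega), add_zero]
          beta_reduce at h2
          rw [h3, h4, not_lt] at h2
          exact h2.trans (le_abs_self C)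
        obtain ⟨n, hn⟩ := exists_nat_gt (K * |C|)
        have h5 := hbd (max n N₀) (le_max_right _ _)
        have h6 := hz2 (max n N₀)
        have h7 : (n : ℝ) ≤ (max n N₀ : ℕ) := by exact_mod_cast le_max_left _ _
        linarith

/-- Positive answer to Q2, for every real normed space. -/
theorem result {E : Type*} [NormedAddCommGroup E] [NormedSpace ℝ E] (m : ℕ) (F : E → ℝ)
    (hF : IsFunctionalOfDegree m F) (hdisc : ¬ Continuous F) :
    ∃ x : ℕ → E, Tendsto x atTop (𝓝 0) ∧
      ∀ y : E, limsup (fun n => ((|F (x n + y)| : ℝ) : EReal)) atTop = ⊤ := by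
  obtain ⟨x, hx, h⟩ := main m F hF hdisc
  refine ⟨x, hx, fun y => ?_⟩
  rw [eq_top_iff]
  refine le_of_forall_lt fun a ha => ?_
  obtain ⟨C, hC1, _⟩ := EReal.lt_iff_exists_real_btwn.mp ha
  refine lt_of_lt_of_le hC1 (le_limsup_of_frequently_le ?_ (by isBoundedDefault))
  refine (h y C).mono fun n hn => ?_
  exact EReal.coe_le_coe_iff.mpr hn.le

end Pool.Agent.Results.MP_f5651a_an.Q2Holds
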